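import Pool.Agent.Helper6.CS.Goals0

set_option autoImplicit false

namespace Pool.Agent.Helper9.CS

open Pool.Agent.Helper6.CS

/-- the assignment `x, a, b, c, 0, 0, ...`. -/
def ev {A : L2Structure} (x a b c : A.M) : ℕ → A.M
  | 0 => x
  | 1 => a
  | 2 => b
  | 3 => c
  | _ => A.zero

theorem upd {A : L2Structure} (x y a b c : A.M) :
    Function.update (ev x a b c) 0 y = ev y a b c := by
  funext i
  rcases i with _ | i
  · rw [Function.update_self]; rfl
  · rw [Function.update_of_ne (Nat.succ_ne_zero i)]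
    rcases i with _ | _ | _ | i <;> rfl

theorem mem_ar {A : L2Structure} (h : IsModelACA0 A) {P : (ℕ → A.M) → Prop} (hP : Arith A P)
    (a b c : A.M) : {x | P (ev x a b c)} ∈ A.S := by
  have h1 := h.comprehension P hP (ev A.zero a b c) 0
  simp only [upd] at h1
  exact h1

theorem mem_eq {A : L2Structure} (h : IsModelACA0 A) (s t : Term) (a b c : A.M) :
    {x | s.val A (ev x a b c) = t.val A (ev x a b c)} ∈ A.S :=
  mem_ar h (Arith.eq s t) a b c

/-- induction over a set of the model. -/
theorem indS {A : L2Structure} (h : IsModelACA0 A) (P : A.M → Prop) (hP : {x | P x} ∈ A.S)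
    (h0 : P A.zero) (h1 : ∀ n, P n → P (A.add n A.one)) (n : A.M) : P n :=
  h.induction {x | P x} hP h0 h1 n

theorem addAssoc {A : L2Structure} (h : IsModelACA0 A) (a b c : A.M) :
    A.add (A.add a b) c = A.add a (A.add b c) := by
  refine indS h (fun x => A.add (A.add a b) x = A.add a (A.add b x))
    (mem_eq h (.add (.add (.var 1) (.var 2)) (.var 0)) (.add (.var 1) (.add (.var 2) (.var 0)))
      a b A.zero) ?_ ?_ c
  · simp only [h.add_zero]
  · intro n hn
    simp only [h.add_succ] at hn ⊢
    rw [hn]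

theorem zeroAdd {A : L2Structure} (h : IsModelACA0 A) (a : A.M) : A.add A.zero a = a := by
  refine indS h (fun x => A.add A.zero x = x)
    (mem_eq h (.add .zero (.var 0)) (.var 0) A.zero A.zero A.zero) ?_ ?_ a
  · simp only [h.add_zero]
  · intro n hn
    simp only [h.add_succ] at hn ⊢
    rw [hn]

theorem succAdd {A : L2Structure} (h : IsModelACA0 A) (a b : A.M) :
    A.add (A.add a A.one) b = A.add (A.add a b) A.one := by
  refine indS h (fun x => A.add (A.add a A.one) x = A.add (A.add a x) A.one)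
    (mem_eq h (.add (.add (.var 1) .one) (.var 0)) (.add (.add (.var 1) (.var 0)) .one)
      a A.zero A.zero) ?_ ?_ b
  · simp only [h.add_zero]
  · intro n hn
    simp only [h.add_succ] at hn ⊢
    rw [hn]

theorem addComm {A : L2Structure} (h : IsModelACA0 A) (a b : A.M) : A.add a b = A.add b a := by
  refine indS h (fun x => A.add a x = A.add x a)
    (mem_eq h (.add (.var 1) (.var 0)) (.add (.var 0) (.var 1)) a A.zero A.zero) ?_ ?_ b
  · simp only [h.add_zero, zeroAdd h]
  · intro n hn
    simp only [h.add_succ, succAdd h] at hn ⊢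
    rw [hn]

theorem addCancel {A : L2Structure} (h : IsModelACA0 A) (a b c : A.M)
    (hab : A.add a b = A.add a c) : b = c := by
  have key := indS h (fun x => ¬ (A.add x b = A.add x c ∧ ¬ b = c))
    (mem_ar h (P := fun e => ¬ ((Term.add (.var 0) (.var 1)).val A e =
      (Term.add (.var 0) (.var 2)).val A e ∧ ¬ (Term.var 1).val A e = (Term.var 2).val A e))
      (Arith.neg (Arith.and (Arith.eq _ _) (Arith.neg (Arith.eq _ _)))) b c A.zero) ?_ ?_ a
  · by_contra hne
    exact key ⟨hab, hne⟩
  · rintro ⟨h1, h2⟩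
    rw [zeroAdd h, zeroAdd h] at h1
    exact h2 h1
  · rintro n hn ⟨h1, h2⟩
    rw [succAdd h, succAdd h] at h1
    exact hn ⟨h.succ_inj _ _ h1, h2⟩

theorem zeroMul {A : L2Structure} (h : IsModelACA0 A) (a : A.M) : A.mul A.zero a = A.zero := by
  refine indS h (fun x => A.mul A.zero x = A.zero)
    (mem_eq h (.mul .zero (.var 0)) .zero A.zero A.zero A.zero) ?_ ?_ a
  · simp only [h.mul_zero]
  · intro n hn
    simp only [h.mul_succ] at hn ⊢
    rw [hn, h.add_zero]

theorem succMul {A : L2Structure} (h : IsModelACA0 A) (a b : A.M) :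
    A.mul (A.add a A.one) b = A.add (A.mul a b) b := by
  refine indS h (fun x => A.mul (A.add a A.one) x = A.add (A.mul a x) x)
    (mem_eq h (.mul (.add (.var 1) .one) (.var 0)) (.add (.mul (.var 1) (.var 0)) (.var 0))
      a A.zero A.zero) ?_ ?_ b
  · simp only [h.mul_zero, h.add_zero]
  · intro n hn
    simp only [h.mul_succ] at hn ⊢
    rw [hn, h.add_succ, h.add_succ]
    congr 1
    rw [addAssoc h, addAssoc h, addComm h n a]

theorem mulComm {A : L2Structure} (h : IsModelACA0 A) (a b : A.M) : A.mul a b = A.mul b a := by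
  refine indS h (fun x => A.mul a x = A.mul x a)
    (mem_eq h (.mul (.var 1) (.var 0)) (.mul (.var 0) (.var 1)) a A.zero A.zero) ?_ ?_ b
  · simp only [h.mul_zero, zeroMul h]
  · intro n hn
    simp only [h.mul_succ, succMul h] at hn ⊢
    rw [hn]

theorem mulAdd {A : L2Structure} (h : IsModelACA0 A) (a b c : A.M) :
    A.mul a (A.add b c) = A.add (A.mul a b) (A.mul a c) := by
  refine indS h (fun x => A.mul a (A.add b x) = A.add (A.mul a b) (A.mul a x))
    (mem_eq h (.mul (.var 1) (.add (.var 2) (.var 0)))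
      (.add (.mul (.var 1) (.var 2)) (.mul (.var 1) (.var 0))) a b A.zero) ?_ ?_ c
  · simp only [h.mul_zero, h.add_zero]
  · intro n hn
    simp only [h.mul_succ, h.add_succ] at hn ⊢
    rw [hn, addAssoc h]

theorem mulAssoc {A : L2Structure} (h : IsModelACA0 A) (a b c : A.M) :
    A.mul (A.mul a b) c = A.mul a (A.mul b c) := by
  refine indS h (fun x => A.mul (A.mul a b) x = A.mul a (A.mul b x))
    (mem_eq h (.mul (.mul (.var 1) (.var 2)) (.var 0)) (.mul (.var 1) (.mul (.var 2) (.var 0)))
      a b A.zero) ?_ ?_ c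
  · simp only [h.mul_zero]
  · intro n hn
    simp only [h.mul_succ] at hn ⊢
    rw [hn, mulAdd h]

theorem mulOne {A : L2Structure} (h : IsModelACA0 A) (a : A.M) : A.mul a A.one = a := by
  have h1 := h.mul_succ a A.zero
  rw [zeroAdd h, h.mul_zero, zeroAdd h] at h1
  exact h1

theorem t_ALGA : G_ALGA := fun _ h =>
  ⟨addAssoc h, addComm h, addCancel h, mulAssoc h, mulComm h, mulOne h, mulAdd h⟩

end Pool.Agent.Helper9.CS
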