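import Pool.Agent.Helper65.CS.Goals

/-!
# CS-CWA: the sum over the codes is linear in the weight
-/

namespace Pool.Agent.Helper9.CS

open scoped Classical
open Pool.Agent.Helper78.DT Pool.Agent.Helper65.CS

theorem av_zero {Ω : Type} [Fintype Ω] : (av fun _ : Ω => (0 : ℝ)) = 0 := by
  unfold av
  simp

theorem cwa : CwaStmt := by
  intro V _ Ω _ G f
  induction f with
  | nil =>
    intro z u A
    cases u with
    | zero => simp only [cw]
    | succ u => simp only [cw]; exact av_zero
  | cons e f ih =>
    intro z u A
    cases u with
    | zero => simp only [cw]
    | succ u =>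
      simp only [cw]
      by_cases hs : Sat e.1 z
      · simp only [if_pos hs]
        rw [av_sum]
        refine Finset.sum_congr rfl fun B _ => ?_
        rw [av_sum]
        refine Finset.sum_congr rfl fun D _ => ?_
        by_cases hc : B.Nonempty ∧ B.card ≤ u + 1 ∧ Disjoint (vr B) A
        · simp only [if_pos hc]
          exact ih _ _ _
        · simp only [if_neg hc]
          exact av_zero
      · simp only [if_neg hs]
        exact ih _ _ _

end Pool.Agent.Helper9.CS
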